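import Mathlib
import Pool.Agent.Y733.FZ.Main

/-!
# Congruences between elliptic curves over all number fields of all degrees

All constants below are absolute: they depend neither on the number field `K` nor on its degree `n`,
nor on the elliptic curves.

Two elements `j₀`, `j` of `K` are called `N`-related if there are elliptic curves `E₀`, `E` over `K`
with these invariants and a prime `p ≥ N` such that `E₀` and `E` have the same `p`-division field
over `K`. This is the case if `E₀[m]` and `E[m]` are isomorphic as Galois modules for some `m` with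
a prime factor `p ≥ N`. There is no restriction on the height or the field of definition of the
twists, none on `p` and `m` other than `p ≥ N ≥ 13`, and isogenous curves are not excepted.

For EVERY `j₀ ∈ K` at most `(C * B ^ (1 + 1/N + ε) * H(j₀) ^ ε) ^ n` of the about `B ^ (2 n)`
elements of `K` of absolute height at most `B` are `N`-related to `j₀`. So at most
`(C * B ^ (3 + 1/N + ε)) ^ n` of the about `B ^ (4 n)` pairs of elements of `K` of height at most
`B` are `N`-related: for almost all pairs of invariants the conjecture of Frey and Mazur holds for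
all twists of both curves and all primes `p ≥ 13`, over all number fields at once, and the
proportion of the exceptions is exponentially small in the degree.

Proof. By a local theorem of helper673 (`Pool.Agent.Y673.FM.loc`), if `E₀` and `E` have the same
`p`-division field, then `p` divides the order of each pole `v` of `j(E)` which is not a pole of
`j(E₀)`, does not divide `6`, and satisfies `8 v(p) < p ^ 2 - 1`, also if `v` divides `p`. The
primes `v` with `8 v(p) ≥ p ^ 2 - 1` for some `p` are at most `C n`. An element of `K` is determined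
by its numerator, its denominator and a unit; the number of the possible denominators is estimated
by the method of Rankin, with different weights at the poles of `j₀` and elsewhere, and the counts
of ideals and of units are uniform in all number fields.
-/

set_option autoImplicit false
set_option linter.unusedSectionVars false

open WeierstrassCurve NumberField
open scoped Classical

namespace Pool.Agent.Results.MP_4a0cc8_nt.AllFieldsCongruences

section
variable {K : Type} [Field K]

/-- The curve `y² = x³ + Ax + B` over `K`. -/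
def curve (A B : K) : WeierstrassCurve K := ⟨0, 0, 0, A, B⟩

/-- The group of its points over the algebraic closure of `K`. -/
abbrev Points (A B : K) : Type := ((curve A B).baseChange (AlgebraicClosure K)).toAffine.Point

/-- The action of a `K`-automorphism `σ` of the algebraic closure on the points. -/
noncomputable def galois (A B : K) (σ : AlgebraicClosure K ≃ₐ[K] AlgebraicClosure K) :
    Points A B →+ Points A B :=
  WeierstrassCurve.Affine.Point.map (σ : AlgebraicClosure K →ₐ[K] AlgebraicClosure K)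

/-- The curves `y² = x³ + Ax + B` and `y² = x³ + A'x + B'` have the same `m`-division field: an
automorphism fixes all points killed by `m` of the first if and only if it fixes all points killed
by `m` of the second. -/
def SameDivisionField (m : ℕ) (A B A' B' : K) : Prop :=
  ∀ σ : AlgebraicClosure K ≃ₐ[K] AlgebraicClosure K,
    (∀ P : Points A B, m • P = 0 → galois A B σ P = P) ↔
      (∀ P : Points A' B', m • P = 0 → galois A' B' σ P = P)

/-- The `m`-torsion of `y² = x³ + Ax + B` and that of `y² = x³ + A'x + B'` are isomorphic as Galois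
modules: some map between the groups of points restricts to a bijective additive map of the
`m`-torsion which commutes with the Galois group. -/
def Congruent (m : ℕ) (A B A' B' : K) : Prop :=
  ∃ f : Points A B → Points A' B', (∀ P Q, m • P = 0 → m • Q = 0 → f (P + Q) = f P + f Q) ∧
    Set.BijOn f {P | m • P = 0} {Q | m • Q = 0} ∧
    ∀ (σ : AlgebraicClosure K ≃ₐ[K] AlgebraicClosure K) (P : Points A B), m • P = 0 →
      f (galois A B σ P) = galois A' B' σ (f P)

/-- The invariant of `y² = x³ + Ax + B`. -/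
noncomputable def jInvariant (A B : K) : K := 6912 * A ^ 3 / (4 * A ^ 3 + 27 * B ^ 2)

/-- `j₀` and `j` are the invariants of two elliptic curves over `K` which have the same `p`-division
field for some prime `p ≥ N`. -/
def Related (N : ℕ) (j₀ j : K) : Prop :=
  ∃ A B A₀ B₀ : K, 4 * A ^ 3 + 27 * B ^ 2 ≠ 0 ∧ 4 * A₀ ^ 3 + 27 * B₀ ^ 2 ≠ 0 ∧
    jInvariant A B = j ∧ jInvariant A₀ B₀ = j₀ ∧
      ∃ p : ℕ, p.Prime ∧ N ≤ p ∧ SameDivisionField p A B A₀ B₀

end

section
variable (K : Type) [Field K] [NumberField K]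

/-- the root discriminant `δ_K` -/
noncomputable def rootDisc : ℝ :=
  |(NumberField.discr K : ℝ)| ^ (1 / (Module.finrank ℚ K : ℝ))

/-- the elements of `K` of absolute height at most `B` -/
def Inv (B : ℝ) : Set K := {j | Height.logHeight₁ j ≤ Module.finrank ℚ K * Real.log B}

variable {K}

/-- the absolute height -/
noncomputable def absHeight (j : K) : ℝ := Real.exp (Height.logHeight₁ j / Module.finrank ℚ K)

/-- the elements of height at most `B` which are `N`-related to `j₀` -/
def Partners (N : ℕ) (j₀ : K) (B : ℝ) : Set K := {j ∈ Inv K B | Related N j₀ j}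

variable (K)

/-- the `N`-related pairs of elements of height at most `B` -/
def RelPairs (N : ℕ) (B : ℝ) : Set (K × K) :=
  {t | t.1 ∈ Inv K B ∧ t.2 ∈ Inv K B ∧ Related N t.1 t.2}

end

open Pool.Agent.Y733.UD Pool.Agent.Y733.LS Pool.Agent.Y733.FZ Pool.Agent.W223.AK
open Pool.Agent.H691R3

section Aux

variable {K : Type} [Field K] [NumberField K]

theorem n_pos : (0 : ℝ) < Module.finrank ℚ K := by
  linarith [finrank_one_le K]

theorem rootDisc_eq : rootDisc K = Real.exp (rd K) := by
  unfold rootDisc rd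
  have h : (0 : ℝ) < |(NumberField.discr K : ℝ)| := by linarith [one_le_disc K]
  rw [Real.rpow_def_of_pos h]
  congr 1
  ring

theorem ht_log (j : K) : Height.logHeight₁ j = ht j := by
  rw [logHeight_eq, ht_eq_Sa]

theorem related_iff (N : ℕ) (j₀ j : K) : Related N j₀ j ↔ Rel N j₀ j := Iff.rfl

theorem ncard_le {α : Type} {S : Set α} {b : ℝ}
    (h : ∀ E : Finset α, (E : Set α) ⊆ S → (E.card : ℝ) ≤ b) : S.Finite ∧ (S.ncard : ℝ) ≤ b := by
  have hfin : S.Finite := by
    by_contra hinf
    obtain ⟨t, ht, hcard⟩ := Set.Infinite.exists_subset_card_eq hinf (⌊b⌋₊ + 1)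
    have h1 := h t ht
    rw [hcard] at h1
    have h2 := Nat.lt_floor_add_one b
    push_cast at h1
    linarith
  refine ⟨hfin, ?_⟩
  have h1 := h hfin.toFinset (by simp)
  rwa [← Set.ncard_eq_toFinset_card S hfin] at h1

theorem le_ncard {S : Set K} (hS : S.Finite) {b : ℝ} {E : Finset K} (hE : (E : Set K) ⊆ S)
    (h : b ≤ E.card) : b ≤ (S.ncard : ℝ) := by
  refine h.trans ?_
  rw [← Set.ncard_coe_finset]
  exact_mod_cast Set.ncard_le_ncard hE hS

theorem pow_form {n : ℕ} {C B Q α β : ℝ} (hC : 0 < C) (hB : 0 < B) (hQ : 0 < Q) :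
    (C * B ^ α * Q ^ β) ^ n = Real.exp (n * (Real.log C + α * Real.log B + β * Real.log Q)) := by
  rw [Real.exp_nat_mul, Real.exp_add, Real.exp_add, Real.exp_log hC, Real.rpow_def_of_pos hB,
    Real.rpow_def_of_pos hQ, mul_comm α, mul_comm β]

theorem fin_Inv (B : ℝ) : (Inv K B).Finite :=
  NumberField.finite_setOfPred_logHeight₁_le (K := K) (Module.finrank ℚ K * Real.log B)

theorem sqrt_rootDisc : √(rootDisc K) = Real.exp (rd K / 2) := by
  rw [rootDisc_eq, Real.exp_half]

theorem log_abs (j : K) : Real.log (absHeight j) = ht j / Module.finrank ℚ K := by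
  unfold absHeight
  rw [Real.log_exp, ht_log]

theorem abs_pos' (j : K) : 0 < absHeight j := Real.exp_pos _

theorem partners_le (N : ℕ) (j₀ : K) (B : ℝ) :
    ((Partners N j₀ B).ncard : ℝ) ≤ ((Inv K B).ncard : ℝ) := by
  have h : Partners N j₀ B ⊆ Inv K B := fun x hx => hx.1
  exact_mod_cast Set.ncard_le_ncard h (fin_Inv B)

theorem pairs_le (N : ℕ) (B : ℝ) :
    ((RelPairs K N B).ncard : ℝ) ≤ ((Inv K B).ncard : ℝ) ^ 2 := by
  have h : RelPairs K N B ⊆ (Inv K B) ×ˢ (Inv K B) := fun x hx => ⟨hx.1, hx.2.1⟩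
  have h1 := Set.ncard_le_ncard h ((fin_Inv B).prod (fin_Inv B))
  rw [Set.ncard_prod] at h1
  rw [pow_two]
  exact_mod_cast h1

end Aux

/-- logarithmic form of the count of partners -/
theorem part_log {N : ℕ} (hN : 13 ≤ N) {ε : ℝ} (hε : 0 < ε) : ∃ A : ℝ, 0 ≤ A ∧
    ∀ (K : Type) [Field K] [NumberField K] (j₀ : K) (B : ℝ), 1 ≤ B →
      ((Partners N j₀ B).ncard : ℝ) ≤ Real.exp (Module.finrank ℚ K *
        (A + (1 + 1 / N + ε) * Real.log B + ε * Real.log (absHeight j₀))) := by
  obtain ⟨A, hA, h⟩ := rel_count hN (ε := min ε 1) (lt_min hε one_pos) (min_le_right _ _)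
  refine ⟨A, hA, ?_⟩
  intro K _ _ j₀ B hB
  have hn := n_pos (K := K)
  have hlB := Real.log_nonneg hB
  refine (ncard_le fun E hE => ?_).2
  refine (h K j₀ (Module.finrank ℚ K * Real.log B) E (mul_nonneg n_pos.le hlB) ?_).trans ?_
  · intro j hj
    obtain ⟨h1, h2⟩ := hE (Finset.mem_coe.2 hj)
    refine ⟨?_, (related_iff _ _ _).1 h2⟩
    rw [← ht_log]
    exact h1
  · apply Real.exp_le_exp.2
    rw [log_abs]
    have h1 : min ε 1 ≤ ε := min_le_left _ _
    have h2 : min ε 1 * (Module.finrank ℚ K * Real.log B) ≤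
        ε * (Module.finrank ℚ K * Real.log B) :=
      mul_le_mul_of_nonneg_right h1 (by positivity)
    have h3 : min ε 1 * ht j₀ ≤ ε * ht j₀ := mul_le_mul_of_nonneg_right h1 (ht_nonneg j₀)
    have h4 : (Module.finrank ℚ K : ℝ) * (ε * (ht j₀ / Module.finrank ℚ K)) = ε * ht j₀ := by
      field_simp
    nlinarith

/-- logarithmic form of the count of pairs -/
theorem pairs_log {N : ℕ} (hN : 13 ≤ N) {ε : ℝ} (hε : 0 < ε) : ∃ A : ℝ, 0 ≤ A ∧
    ∀ (K : Type) [Field K] [NumberField K] (B : ℝ), 1 ≤ B →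
      ((RelPairs K N B).ncard : ℝ) ≤ Real.exp (Module.finrank ℚ K *
        (A + (3 + 1 / N + ε) * Real.log B)) := by
  obtain ⟨A, hA, h⟩ := pair_count hN (ε := min ε 1) (lt_min hε one_pos) (min_le_right _ _)
  refine ⟨A, hA, ?_⟩
  intro K _ _ B hB
  have hn := n_pos (K := K)
  have hlB := Real.log_nonneg hB
  refine (ncard_le fun E hE => ?_).2
  refine (h K (Module.finrank ℚ K * Real.log B) E (mul_nonneg n_pos.le hlB) ?_).trans ?_
  · intro t ht'
    obtain ⟨h1, h2, h3⟩ := hE (Finset.mem_coe.2 ht')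
    refine ⟨?_, ?_, (related_iff _ _ _).1 h3⟩
    · rw [← ht_log]
      exact h1
    · rw [← ht_log]
      exact h2
  · apply Real.exp_le_exp.2
    have h1 : min ε 1 ≤ ε := min_le_left _ _
    have h2 : min ε 1 * (Module.finrank ℚ K * Real.log B) ≤
        ε * (Module.finrank ℚ K * Real.log B) :=
      mul_le_mul_of_nonneg_right h1 (by positivity)
    nlinarith

/-- logarithmic form of the lower bound for the number of all invariants -/
theorem inv_log {ε : ℝ} (hε : 0 < ε) : ∃ A : ℝ, 0 ≤ A ∧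
    ∀ (K : Type) [Field K] [NumberField K] (B : ℝ), 16 * √(rootDisc K) ≤ B →
      Real.exp (Module.finrank ℚ K * ((2 - ε) * Real.log B - (2 + ε) * rd K - A)) ≤
        ((Inv K B).ncard : ℝ) := by
  classical
  set ε1 : ℝ := min (ε / 4) 1 with hε1
  have h1 : 0 < ε1 := lt_min (by positivity) one_pos
  have h2 : ε1 ≤ 1 := min_le_right _ _
  have h3 : 4 * ε1 ≤ ε := by
    have := min_le_left (ε / 4) 1
    rw [← hε1] at this
    linarith
  obtain ⟨A, hA, h⟩ := low_count h1 h2
  refine ⟨A, hA, ?_⟩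
  intro K _ _ B hBK
  have hn := n_pos (K := K)
  have hrd := rd_nonneg K
  have hl16 : 0 ≤ Real.log 16 := Real.log_nonneg (by norm_num)
  have hl : Real.log 16 + rd K / 2 ≤ Real.log B := by
    rw [sqrt_rootDisc] at hBK
    have h1 := Real.log_le_log (by positivity) hBK
    rwa [Real.log_mul (by norm_num) (Real.exp_pos _).ne', Real.log_exp] at h1
  have hl8 : Real.log 8 ≤ Real.log 16 := Real.log_le_log (by norm_num) (by norm_num)
  obtain ⟨E, hE, hcard⟩ := h K (Real.log B) (by linarith)
  have hsub : (E : Set K) ⊆ Inv K B := by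
    intro j hj
    obtain ⟨h4, h5⟩ := hE j (Finset.mem_coe.1 hj)
    show Height.logHeight₁ j ≤ _
    rw [ht_log]
    exact h5
  have hc := le_ncard (fin_Inv B) hsub hcard
  refine le_trans ?_ hc
  apply Real.exp_le_exp.2
  have h7 : (2 - ε) * Real.log B ≤ (2 - 4 * ε1) * Real.log B :=
    mul_le_mul_of_nonneg_right (by linarith) (by linarith)
  have h8 : (2 + ε1) * rd K ≤ (2 + ε) * rd K := mul_le_mul_of_nonneg_right (by linarith) hrd
  apply mul_le_mul_of_nonneg_left _ hn.le
  linarith

/-- the number of partners -/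
theorem part_one (N : ℕ) (ε : ℝ) (hN : 13 ≤ N) (hε : 0 < ε) : ∃ C : ℝ, 0 < C ∧
    ∀ (K : Type) [Field K] [NumberField K] (j₀ : K) (B : ℝ), 1 ≤ B →
      (Inv K B).Finite ∧ ((Partners N j₀ B).ncard : ℝ) ≤
        (C * B ^ (1 + 1 / (N : ℝ) + ε) * absHeight j₀ ^ ε) ^ Module.finrank ℚ K := by
  obtain ⟨A, hA, h⟩ := part_log hN hε
  refine ⟨Real.exp A, Real.exp_pos _, ?_⟩
  intro K _ _ j₀ B hB
  have hB0 : 0 < B := by linarith
  refine ⟨fin_Inv B, ?_⟩
  rw [pow_form (Real.exp_pos _) hB0 (abs_pos' j₀), Real.log_exp]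
  exact h K j₀ B hB

/-- their proportion -/
theorem part_two (N : ℕ) (ε : ℝ) (hN : 13 ≤ N) (hε : 0 < ε) : ∃ C : ℝ, 0 < C ∧
    ∀ (K : Type) [Field K] [NumberField K] (j₀ : K) (B : ℝ), 1 ≤ B →
      ((Partners N j₀ B).ncard : ℝ) ≤
        (C * B ^ (-(1 - 1 / (N : ℝ)) + ε) * absHeight j₀ ^ ε) ^ Module.finrank ℚ K *
          (rootDisc K ^ (2 + ε)) ^ Module.finrank ℚ K * ((Inv K B).ncard : ℝ) := by
  obtain ⟨A1, hA1, h1⟩ := part_log hN (half_pos hε)
  obtain ⟨A2, hA2, h2⟩ := inv_log (half_pos hε)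
  have hl16 : 0 ≤ Real.log 16 := Real.log_nonneg (by norm_num)
  refine ⟨Real.exp (A1 + A2 + Real.log 16), Real.exp_pos _, ?_⟩
  intro K _ _ j₀ B hB
  have hB0 : 0 < B := by linarith
  have hlB : 0 ≤ Real.log B := Real.log_nonneg hB
  have hn := n_pos (K := K)
  have hrd := rd_nonneg K
  have hNR : (0 : ℝ) < N := by
    have : 0 < N := by omega
    exact_mod_cast this
  have hN1 : 0 ≤ 1 / (N : ℝ) := by positivity
  have hH : 0 ≤ Real.log (absHeight j₀) := by
    rw [log_abs]
    have := ht_nonneg j₀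
    positivity
  have eδ : (rootDisc K ^ (2 + ε)) ^ Module.finrank ℚ K =
      Real.exp (Module.finrank ℚ K * ((2 + ε) * rd K)) := by
    rw [rootDisc_eq, Real.exp_nat_mul, ← Real.exp_mul, mul_comm (rd K)]
  rw [pow_form (Real.exp_pos _) hB0 (abs_pos' j₀), Real.log_exp, eδ, ← Real.exp_add]
  rcases le_or_gt (16 * √(rootDisc K)) B with hBK | hBK
  · refine (h1 K j₀ B hB).trans ?_
    refine le_trans ?_ (mul_le_mul_of_nonneg_left (h2 K B hBK) (Real.exp_pos _).le)
    rw [← Real.exp_add]
    apply Real.exp_le_exp.2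
    rw [← mul_add, ← mul_add]
    apply mul_le_mul_of_nonneg_left _ hn.le
    nlinarith
  · have h7 : Real.log B < Real.log 16 + rd K / 2 := by
      rw [sqrt_rootDisc] at hBK
      have h1 := Real.log_lt_log hB0 hBK
      rwa [Real.log_mul (by norm_num) (Real.exp_pos _).ne', Real.log_exp] at h1
    refine le_trans (partners_le N j₀ B) ?_
    refine le_mul_of_one_le_left (Nat.cast_nonneg _) (Real.one_le_exp ?_)
    rw [← mul_add]
    apply mul_nonneg hn.le
    have h8 : -(1 * Real.log B) ≤ (-(1 - 1 / (N : ℝ)) + ε) * Real.log B := by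
      have := mul_nonneg (add_nonneg hN1 hε.le) hlB
      linarith
    have h9 := mul_nonneg hε.le hH
    have h10 := mul_nonneg hε.le hrd
    linarith

/-- the number of pairs -/
theorem part_three (N : ℕ) (ε : ℝ) (hN : 13 ≤ N) (hε : 0 < ε) : ∃ C : ℝ, 0 < C ∧
    ∀ (K : Type) [Field K] [NumberField K] (B : ℝ), 1 ≤ B →
      ((RelPairs K N B).ncard : ℝ) ≤ (C * B ^ (3 + 1 / (N : ℝ) + ε)) ^ Module.finrank ℚ K := by
  obtain ⟨A, hA, h⟩ := pairs_log hN hε
  refine ⟨Real.exp A, Real.exp_pos _, ?_⟩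
  intro K _ _ B hB
  have hB0 : 0 < B := by linarith
  refine (h K B hB).trans (le_of_eq ?_)
  rw [Real.rpow_def_of_pos hB0, ← Real.exp_add, ← Real.exp_nat_mul]
  congr 2
  ring

/-- their proportion, logarithmic form -/
theorem prop_log {N : ℕ} (hN : 13 ≤ N) {ε : ℝ} (hε : 0 < ε) : ∃ A : ℝ, 0 ≤ A ∧
    ∀ (K : Type) [Field K] [NumberField K] (B : ℝ), 1 ≤ B →
      ((RelPairs K N B).ncard : ℝ) ≤ Real.exp (Module.finrank ℚ K *
        (A + (-(1 - 1 / N) + ε) * Real.log B + (4 + ε) * rd K)) *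
          ((Inv K B).ncard : ℝ) ^ 2 := by
  obtain ⟨A1, hA1, h1⟩ := pairs_log hN (half_pos hε)
  obtain ⟨A2, hA2, h2⟩ := inv_log (ε := ε / 4) (by positivity)
  have hl16 : 0 ≤ Real.log 16 := Real.log_nonneg (by norm_num)
  refine ⟨A1 + 2 * A2 + Real.log 16, by positivity, ?_⟩
  intro K _ _ B hB
  have hB0 : 0 < B := by linarith
  have hlB : 0 ≤ Real.log B := Real.log_nonneg hB
  have hn := n_pos (K := K)
  have hrd := rd_nonneg K
  have hNR : (0 : ℝ) < N := by
    have : 0 < N := by omega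
    exact_mod_cast this
  have hN1 : 0 ≤ 1 / (N : ℝ) := by positivity
  rcases le_or_gt (16 * √(rootDisc K)) B with hBK | hBK
  · refine (h1 K B hB).trans ?_
    have h3 := pow_le_pow_left₀ (Real.exp_pos _).le (h2 K B hBK) 2
    rw [← Real.exp_nat_mul] at h3
    refine le_trans ?_ (mul_le_mul_of_nonneg_left h3 (Real.exp_pos _).le)
    rw [← Real.exp_add]
    apply Real.exp_le_exp.2
    push_cast
    have h4 : (Module.finrank ℚ K : ℝ) * (A1 + (3 + 1 / N + ε / 2) * Real.log B) ≤
        Module.finrank ℚ K * ((A1 + 2 * A2 + Real.log 16 + (-(1 - 1 / N) + ε) * Real.log B +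
          (4 + ε) * rd K) + 2 * ((2 - ε / 4) * Real.log B - (2 + ε / 4) * rd K - A2)) := by
      apply mul_le_mul_of_nonneg_left _ hn.le
      nlinarith
    linarith
  · have h7 : Real.log B < Real.log 16 + rd K / 2 := by
      rw [sqrt_rootDisc] at hBK
      have h1 := Real.log_lt_log hB0 hBK
      rwa [Real.log_mul (by norm_num) (Real.exp_pos _).ne', Real.log_exp] at h1
    refine le_trans (pairs_le N B) ?_
    refine le_mul_of_one_le_left (by positivity) (Real.one_le_exp ?_)
    apply mul_nonneg hn.le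
    have h8 : -(1 * Real.log B) ≤ (-(1 - 1 / (N : ℝ)) + ε) * Real.log B := by
      have := mul_nonneg (add_nonneg hN1 hε.le) hlB
      linarith
    have h10 := mul_nonneg hε.le hrd
    linarith

theorem part_four (N : ℕ) (ε : ℝ) (hN : 13 ≤ N) (hε : 0 < ε) : ∃ C : ℝ, 0 < C ∧
    ∀ (K : Type) [Field K] [NumberField K] (B : ℝ), 1 ≤ B →
      ((RelPairs K N B).ncard : ℝ) ≤
        (C * B ^ (-(1 - 1 / (N : ℝ)) + ε) * rootDisc K ^ (4 + ε)) ^ Module.finrank ℚ K *
          ((Inv K B).ncard : ℝ) ^ 2 := by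
  obtain ⟨A, hA, h⟩ := prop_log hN hε
  refine ⟨Real.exp A, Real.exp_pos _, ?_⟩
  intro K _ _ B hB
  have hB0 : 0 < B := by linarith
  have hδ : 0 < rootDisc K := by rw [rootDisc_eq]; exact Real.exp_pos _
  rw [pow_form (Real.exp_pos _) hB0 hδ, Real.log_exp, rootDisc_eq, Real.log_exp]
  exact h K B hB

/-- a simple form -/
theorem part_five : ∃ B0 : ℝ, 0 < B0 ∧
    ∀ (K : Type) [Field K] [NumberField K] (B : ℝ), B0 * rootDisc K ^ 10 ≤ B →
      ((RelPairs K 13 B).ncard : ℝ) ≤
        (B ^ (-(1 / 2) : ℝ)) ^ Module.finrank ℚ K * ((Inv K B).ncard : ℝ) ^ 2 := by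
  obtain ⟨A, hA, h⟩ := prop_log (N := 13) (ε := 1 / 100) le_rfl (by norm_num)
  refine ⟨Real.exp (3 * A), Real.exp_pos _, ?_⟩
  intro K _ _ B hB
  have hn := n_pos (K := K)
  have hrd := rd_nonneg K
  have e10 : rootDisc K ^ 10 = Real.exp (10 * rd K) := by
    rw [rootDisc_eq, ← Real.exp_nat_mul]
    norm_num
  rw [e10, ← Real.exp_add] at hB
  have hB0 : 0 < B := lt_of_lt_of_le (Real.exp_pos _) hB
  have hlB : 3 * A + 10 * rd K ≤ Real.log B := by
    rwa [Real.le_log_iff_exp_le hB0]
  have hB1 : 1 ≤ B := le_trans (Real.one_le_exp (by positivity)) hB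
  refine (h K B hB1).trans (mul_le_mul_of_nonneg_right ?_ (by positivity))
  rw [Real.rpow_def_of_pos hB0, ← Real.exp_nat_mul]
  apply Real.exp_le_exp.2
  apply mul_le_mul_of_nonneg_left _ hn.le
  push_cast
  nlinarith

/-- the number of all invariants -/
theorem part_six (ε : ℝ) (hε : 0 < ε) : ∃ C : ℝ, 0 < C ∧
    ∀ (K : Type) [Field K] [NumberField K] (B : ℝ), 16 * √(rootDisc K) ≤ B →
      (C⁻¹ * B ^ (2 - ε) * rootDisc K ^ (-(2 + ε))) ^ Module.finrank ℚ K ≤
        ((Inv K B).ncard : ℝ) := by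
  obtain ⟨A, hA, h⟩ := inv_log hε
  refine ⟨Real.exp A, Real.exp_pos _, ?_⟩
  intro K _ _ B hBK
  have hB : 0 < B := by
    have h1 := hBK
    rw [sqrt_rootDisc] at h1
    have : 0 < 16 * Real.exp (rd K / 2) := by positivity
    linarith
  have hδ : 0 < rootDisc K := by rw [rootDisc_eq]; exact Real.exp_pos _
  rw [pow_form (by positivity) hB hδ, Real.log_inv, Real.log_exp, rootDisc_eq, Real.log_exp]
  refine le_trans (le_of_eq ?_) (h K B hBK)
  congr 1
  ring

/-- every element is an invariant -/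
theorem part_seven {K : Type} [Field K] [NumberField K] (j : K) :
    ∃ a b : K, 4 * a ^ 3 + 27 * b ^ 2 ≠ 0 ∧ jInvariant a b = j := by
  by_cases h0 : j = 0
  · refine ⟨0, 1, by norm_num, ?_⟩
    unfold jInvariant
    rw [h0]
    norm_num
  by_cases h1 : j = 1728
  · refine ⟨1, 0, by norm_num, ?_⟩
    unfold jInvariant
    rw [h1]
    norm_num
  have h2 : j - 1728 ≠ 0 := sub_ne_zero.2 h1
  have e : 4 * (-3 * j * (j - 1728)) ^ 3 + 27 * (-2 * j * (j - 1728) ^ 2) ^ 2 =
      -186624 * (j ^ 2 * (j - 1728) ^ 3) := by ring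
  have hD : 4 * (-3 * j * (j - 1728)) ^ 3 + 27 * (-2 * j * (j - 1728) ^ 2) ^ 2 ≠ 0 := by
    rw [e]
    exact mul_ne_zero (by norm_num) (mul_ne_zero (pow_ne_zero _ h0) (pow_ne_zero _ h2))
  refine ⟨-3 * j * (j - 1728), -2 * j * (j - 1728) ^ 2, hD, ?_⟩
  unfold jInvariant
  rw [div_eq_iff hD, e]
  ring

/-- isomorphic torsion modules give equal division fields -/
theorem part_eight {K : Type} [Field K] {A B A' B' : K} {m p : ℕ} (hpm : p ∣ m)
    (h : Congruent m A B A' B') : SameDivisionField p A B A' B' := by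
  obtain ⟨f, hadd, hbij, hgal⟩ := h
  have hm0 : ∀ P : Points A B, p • P = 0 → m • P = 0 := by
    intro P hP
    obtain ⟨k, rfl⟩ := hpm
    rw [mul_comm, mul_smul, hP, nsmul_zero]
  have hm0' : ∀ P : Points A' B', p • P = 0 → m • P = 0 := by
    intro P hP
    obtain ⟨k, rfl⟩ := hpm
    rw [mul_comm, mul_smul, hP, nsmul_zero]
  have hf0 : f 0 = 0 := by
    have h1 := hadd 0 0 (nsmul_zero _) (nsmul_zero _)
    rw [add_zero] at h1
    exact (add_eq_left.1 h1.symm)
  have hmul : ∀ (k : ℕ) (P : Points A B), m • P = 0 → f (k • P) = k • f P := by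
    intro k P hP
    induction k with
    | zero => rw [zero_nsmul, zero_nsmul, hf0]
    | succ k ih =>
      rw [succ_nsmul, succ_nsmul, hadd _ _ (by rw [smul_comm, hP, nsmul_zero]) hP, ih]
  have hp : ∀ P : Points A B, m • P = 0 → (p • P = 0 ↔ p • f P = 0) := by
    intro P hP
    constructor
    · intro h
      rw [← hmul p P hP, h, hf0]
    · intro h
      rw [← hmul p P hP] at h
      refine hbij.injOn (show p • P ∈ {P : Points A B | m • P = 0} from ?_)
        (show (0 : Points A B) ∈ {P : Points A B | m • P = 0} from nsmul_zero _) ?_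
      · show m • p • P = 0
        rw [smul_comm, hP, nsmul_zero]
      · rw [h, hf0]
  intro σ
  constructor
  · intro h Q hQ
    obtain ⟨P, hP, rfl⟩ := hbij.surjOn (show Q ∈ {Q : Points A' B' | m • Q = 0} from hm0' Q hQ)
    rw [← hgal σ P hP, h P ((hp P hP).2 hQ)]
  · intro h P hP
    have hP' := hm0 P hP
    have h3 : m • galois A B σ P = 0 := by
      rw [← map_nsmul, hP', map_zero]
    refine hbij.injOn (show galois A B σ P ∈ {P : Points A B | m • P = 0} from h3)
      (show P ∈ {P : Points A B | m • P = 0} from hP') ?_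
    rw [hgal σ P hP']
    exact h _ ((hp P hP').1 hP)

/-- **Main theorem.** All constants are absolute: they do not depend on `K` or on its degree `n`.
Let `N ≥ 13` and `ε > 0`.
(1) There is `C` such that, over every number field `K`, for every `j₀ ∈ K` and for every `B ≥ 1` at
most `(C * B ^ (1 + 1/N + ε) * H(j₀) ^ ε) ^ n` elements of `K` of height at most `B` are
`N`-related to `j₀`.
(2) This is at most the proportion `(C * B ^ (-(1 - 1/N) + ε) * H(j₀) ^ ε * δ_K ^ (2 + ε)) ^ n`.
(3) At most `(C * B ^ (3 + 1/N + ε)) ^ n` pairs of elements of height at most `B` are `N`-related.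
(4) This is at most the proportion `(C * B ^ (-(1 - 1/N) + ε) * δ_K ^ (4 + ε)) ^ n` of all pairs.
(5) For `N = 13`, this proportion is at most `B ^ (-n / 2)`, over every number field and for all
`B ≥ B0 * δ_K ^ 10`.
(6) For `B ≥ 16 * √δ_K`, there are at least `(B ^ (2 - ε) / (C * δ_K ^ (2 + ε))) ^ n` elements.
(7) Every `j ∈ K` is the invariant of a curve.
(8) If the `m`-torsion modules of two curves are isomorphic, then the curves have the same
`p`-division field for all `p` dividing `m`. -/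
theorem result :
    (∀ (N : ℕ) (ε : ℝ), 13 ≤ N → 0 < ε → ∃ C : ℝ, 0 < C ∧
      ∀ (K : Type) [Field K] [NumberField K] (j₀ : K) (B : ℝ), 1 ≤ B →
        (Inv K B).Finite ∧ ((Partners N j₀ B).ncard : ℝ) ≤
          (C * B ^ (1 + 1 / (N : ℝ) + ε) * absHeight j₀ ^ ε) ^ Module.finrank ℚ K) ∧
    (∀ (N : ℕ) (ε : ℝ), 13 ≤ N → 0 < ε → ∃ C : ℝ, 0 < C ∧
      ∀ (K : Type) [Field K] [NumberField K] (j₀ : K) (B : ℝ), 1 ≤ B →
        ((Partners N j₀ B).ncard : ℝ) ≤
          (C * B ^ (-(1 - 1 / (N : ℝ)) + ε) * absHeight j₀ ^ ε) ^ Module.finrank ℚ K *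
            (rootDisc K ^ (2 + ε)) ^ Module.finrank ℚ K * ((Inv K B).ncard : ℝ)) ∧
    (∀ (N : ℕ) (ε : ℝ), 13 ≤ N → 0 < ε → ∃ C : ℝ, 0 < C ∧
      ∀ (K : Type) [Field K] [NumberField K] (B : ℝ), 1 ≤ B →
        ((RelPairs K N B).ncard : ℝ) ≤
          (C * B ^ (3 + 1 / (N : ℝ) + ε)) ^ Module.finrank ℚ K) ∧
    (∀ (N : ℕ) (ε : ℝ), 13 ≤ N → 0 < ε → ∃ C : ℝ, 0 < C ∧
      ∀ (K : Type) [Field K] [NumberField K] (B : ℝ), 1 ≤ B →
        ((RelPairs K N B).ncard : ℝ) ≤
          (C * B ^ (-(1 - 1 / (N : ℝ)) + ε) * rootDisc K ^ (4 + ε)) ^ Module.finrank ℚ K *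
            ((Inv K B).ncard : ℝ) ^ 2) ∧
    (∃ B0 : ℝ, 0 < B0 ∧
      ∀ (K : Type) [Field K] [NumberField K] (B : ℝ), B0 * rootDisc K ^ 10 ≤ B →
        ((RelPairs K 13 B).ncard : ℝ) ≤
          (B ^ (-(1 / 2) : ℝ)) ^ Module.finrank ℚ K * ((Inv K B).ncard : ℝ) ^ 2) ∧
    (∀ ε : ℝ, 0 < ε → ∃ C : ℝ, 0 < C ∧
      ∀ (K : Type) [Field K] [NumberField K] (B : ℝ), 16 * √(rootDisc K) ≤ B →
        (C⁻¹ * B ^ (2 - ε) * rootDisc K ^ (-(2 + ε))) ^ Module.finrank ℚ K ≤
          ((Inv K B).ncard : ℝ)) ∧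
    (∀ (K : Type) [Field K] [NumberField K] (j : K),
      ∃ a b : K, 4 * a ^ 3 + 27 * b ^ 2 ≠ 0 ∧ jInvariant a b = j) ∧
    (∀ (K : Type) [Field K] [NumberField K] (A B A' B' : K) (m p : ℕ), p ∣ m →
      Congruent m A B A' B' → SameDivisionField p A B A' B') :=
  ⟨part_one, part_two, part_three, part_four, part_five, part_six,
    fun _ _ _ j => part_seven j, fun _ _ _ _ _ _ _ _ _ hpm h => part_eight hpm h⟩

end Pool.Agent.Results.MP_4a0cc8_nt.AllFieldsCongruences
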