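import Mathlib
import Pool.Agent.Y729.CF.Cong

/-!
# MP_4a0cc8_nt: congruences do not lower the conductor of almost all elliptic curves with full
two-torsion, ordered by the conductor, over every number field and at all large levels

Let `K` be a number field of degree `d`. There are `X ^ (2 / 3 + o(1))` elliptic curves `E₀` over `K`
with full rational two-torsion and conductor at most `X`, up to isomorphism over `K` (all quadratic
twists are counted, and there is no restriction on the heights). For every `η > 0` all but a
proportion `X ^ (-ν)` of them have the following property, for EVERY elliptic curve `E` over `K`: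

* if `E[n]` and `E₀[n]` are isomorphic Galois modules for some `n > 121 ^ (8 d + 13)`, the product of
  the norms of the primes (not above two) of bad reduction of `E` is at least `X ^ (1 - η)`;
* if `K(E[p]) = K(E₀[p])` for some prime `p ≥ 13` with `p ^ 2 > 8 d + 1`, this holds for the product
  of the norms of the primes of potentially multiplicative reduction of `E`.

So the statement of Q1, that `E` is isogenous to `E₀`, holds (there are no isomorphisms at all) for
almost all `E₀`, all `n ≥ n₀(d)` and all `E` with conductor at most `X ^ (1 - η)`; isogenous curves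
have the same conductor.

Proof. Ordered by the conductor, almost all curves of the family satisfy Szpiro's conjecture with
exponent close to the expected one and have a Legendre parameter with large radical (libraries of
this project). Then at almost all primes `v` of the conductor, measured by the norm, the valuation
of `j(E₀)` is exactly `-2`. At such a `v` not above `6` a curve `E` with the same `p`-division field
cannot have potentially good reduction, since `p ∤ 2` (theorem `FM.loc` of the library of
helper673, which also covers `v ∣ p`). A level `n > 121 ^ (8 d + 13)` has a prime factor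
`p ≥ 8 d + 13`, or it is divisible by a prime power `m = q ^ (k + 1) > 120`, `q < 8 d + 13`; in the
second case good reduction of `E` at `v ∤ 6 q` would imply `m ∣ 60 v(j) = -120` (theorem
`FM.tameM`).
-/

set_option autoImplicit false

open NumberField IsDedekindDomain
open scoped Classical

namespace Pool.Agent.Results.MP_4a0cc8_nt.ConductorOrderedAllLevels

/-- The curve `y² = x³ + Ax + B` over `K`. -/
def curve {K : Type} [Field K] (A B : K) : WeierstrassCurve K := ⟨0, 0, 0, A, B⟩

/-- The group of its points over the algebraic closure of `K`. -/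
abbrev Points {K : Type} [Field K] (A B : K) : Type :=
  ((curve A B).baseChange (AlgebraicClosure K)).toAffine.Point

/-- The action of an automorphism `σ` of the algebraic closure over `K` on the points. -/
noncomputable def galois {K : Type} [Field K] (A B : K)
    (σ : AlgebraicClosure K ≃ₐ[K] AlgebraicClosure K) : Points A B →+ Points A B :=
  WeierstrassCurve.Affine.Point.map (σ : AlgebraicClosure K →ₐ[K] AlgebraicClosure K)

/-- The groups of the points killed by `n` of `y² = x³ + Ax + B` and of `y² = x³ + A'x + B'` are
isomorphic as Galois modules: some map between the groups of points restricts to a bijective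
additive map between them which commutes with the Galois group of `K`. -/
def Congruent {K : Type} [Field K] (n : ℕ) (A B A' B' : K) : Prop :=
  ∃ f : Points A B → Points A' B', (∀ P Q, n • P = 0 → n • Q = 0 → f (P + Q) = f P + f Q) ∧
    Set.BijOn f {P | n • P = 0} {Q | n • Q = 0} ∧
    ∀ (σ : AlgebraicClosure K ≃ₐ[K] AlgebraicClosure K) (P : Points A B), n • P = 0 →
      f (galois A B σ P) = galois A' B' σ (f P)

/-- The fields generated by the points killed by `p` of the two curves are the same: they are fixed
by the same automorphisms. -/
def SameDivisionField {K : Type} [Field K] (p : ℕ) (A B A' B' : K) : Prop :=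
  ∀ σ : AlgebraicClosure K ≃ₐ[K] AlgebraicClosure K,
    (∀ P : Points A B, p • P = 0 → galois A B σ P = P) ↔
      (∀ P : Points A' B', p • P = 0 → galois A' B' σ P = P)

/-- full rational two-torsion: the polynomial of the first coordinates of the points of order two
has three roots -/
def FullTwo {K : Type} [Field K] (E : WeierstrassCurve K) : Prop :=
  ∃ e : Fin 3 → K, Function.Injective e ∧
    ∀ i, 4 * e i ^ 3 + E.b₂ * e i ^ 2 + 2 * E.b₄ * e i + E.b₆ = 0

/-- good reduction at `v`: some Weierstrass equation over `K` of the curve is integral at `v` and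
has a discriminant which is a unit at `v` -/
def GoodAt {K : Type} [Field K] [NumberField K] (v : HeightOneSpectrum (𝓞 K))
    (E : WeierstrassCurve K) : Prop :=
  ∃ C : WeierstrassCurve.VariableChange K,
    v.valuation K (C • E).a₁ ≤ 1 ∧ v.valuation K (C • E).a₂ ≤ 1 ∧ v.valuation K (C • E).a₃ ≤ 1 ∧
    v.valuation K (C • E).a₄ ≤ 1 ∧ v.valuation K (C • E).a₆ ≤ 1 ∧ v.valuation K (C • E).Δ = 1

/-- semistable (good or multiplicative) reduction at `v`: some Weierstrass equation over `K` of the
curve is integral at `v` and its discriminant or its invariant `c₄` is a unit at `v` -/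
def SemistableAt {K : Type} [Field K] [NumberField K] (v : HeightOneSpectrum (𝓞 K))
    (E : WeierstrassCurve K) : Prop :=
  ∃ C : WeierstrassCurve.VariableChange K,
    v.valuation K (C • E).a₁ ≤ 1 ∧ v.valuation K (C • E).a₂ ≤ 1 ∧ v.valuation K (C • E).a₃ ≤ 1 ∧
    v.valuation K (C • E).a₄ ≤ 1 ∧ v.valuation K (C • E).a₆ ≤ 1 ∧
    (v.valuation K (C • E).Δ = 1 ∨ v.valuation K (C • E).c₄ = 1)

/-- the product of the norms of the primes `v` not above two of bad reduction -/
noncomputable def badProduct {K : Type} [Field K] [NumberField K] (E : WeierstrassCurve K) : ℝ :=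
  ∏ᶠ v ∈ {v : HeightOneSpectrum (𝓞 K) | ¬ GoodAt v E ∧ v.valuation K 2 = 1},
    (Ideal.absNorm v.asIdeal : ℝ)

/-- the part prime to two of the norm of the conductor of a curve with full two-torsion: the product
over the primes `v` not above two of `N(v)` for multiplicative and `N(v) ^ 2` for additive
reduction -/
noncomputable def cond {K : Type} [Field K] [NumberField K] (E : WeierstrassCurve K) : ℝ :=
  badProduct E *
  ∏ᶠ v ∈ {v : HeightOneSpectrum (𝓞 K) | ¬ SemistableAt v E ∧ v.valuation K 2 = 1},
    (Ideal.absNorm v.asIdeal : ℝ)

/-- The invariant of `y² = x³ + Ax + B`. -/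
noncomputable def jInvariant {K : Type} [Field K] (A B : K) : K :=
  6912 * A ^ 3 / (4 * A ^ 3 + 27 * B ^ 2)

/-- the product of the norms of the primes `v` not above two of potentially multiplicative
reduction, that is, such that the invariant is not integral at `v` -/
noncomputable def poleProduct {K : Type} [Field K] [NumberField K] (A B : K) : ℝ :=
  ∏ᶠ v ∈ {v : HeightOneSpectrum (𝓞 K) | ¬ v.valuation K (jInvariant A B) ≤ 1 ∧
    v.valuation K 2 = 1}, (Ideal.absNorm v.asIdeal : ℝ)

/-- the Weierstrass curves over `K` up to isomorphism over `K` (changes of variables) -/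
abbrev IsoClass (K : Type) [Field K] : Type :=
  Quotient (MulAction.orbitRel (WeierstrassCurve.VariableChange K) (WeierstrassCurve K))

/-- the isomorphism classes of the elliptic curves over `K` with full rational two-torsion and
conductor (outside two) at most `X` -/
def Curves (K : Type) [Field K] [NumberField K] (X : ℝ) : Set (IsoClass K) :=
  {q | ∃ E : WeierstrassCurve K, Quotient.mk'' E = q ∧ E.Δ ≠ 0 ∧ FullTwo E ∧ cond E ≤ X}

/-- `E : y² = x³ + Ax + B` has a companion with few bad primes: there is an elliptic curve
`E' : y² = x³ + A'x + B'` over `K` such that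
* `E[n]` and `E'[n]` are isomorphic for some `n > 121 ^ (8 [K : ℚ] + 13)`, and the product of the
  norms of the primes of bad reduction of `E'` is less than `Y`, or
* `K(E[p]) = K(E'[p])` for some prime `p ≥ 13` with `8 [K : ℚ] + 1 < p ^ 2`, and the product of the
  norms of the primes of potentially multiplicative reduction of `E'` is less than `Y`. -/
def HasSmallCompanion {K : Type} [Field K] [NumberField K] (A B : K) (Y : ℝ) : Prop :=
  ∃ A' B' : K, 4 * A' ^ 3 + 27 * B' ^ 2 ≠ 0 ∧
    ((badProduct (curve A' B') < Y ∧ ∃ n : ℕ, 121 ^ (8 * Module.finrank ℚ K + 13) < n ∧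
        Congruent n A B A' B') ∨
      (poleProduct A' B' < Y ∧ ∃ p : ℕ, p.Prime ∧ 13 ≤ p ∧ 8 * Module.finrank ℚ K + 1 < p ^ 2 ∧
        SameDivisionField p A B A' B'))

/-- the isomorphism classes of the curves `y² = x³ + Ax + B` with full two-torsion and conductor at
most `X` with a companion with product of the bad primes less than `X ^ (1 - η)` -/
def Exceptional (K : Type) [Field K] [NumberField K] (η X : ℝ) : Set (IsoClass K) :=
  {q | ∃ A B : K, Quotient.mk'' (curve A B) = q ∧ 4 * A ^ 3 + 27 * B ^ 2 ≠ 0 ∧
    FullTwo (curve A B) ∧ cond (curve A B) ≤ X ∧ HasSmallCompanion A B (X ^ (1 - η))}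

/-- **Congruences do not lower the conductor of almost all curves.** (1) There are
`X ^ (2 / 3 + o(1))` elliptic curves over `K` with full two-torsion and conductor at most `X`.
(2) For every `η > 0` there is a `ν > 0` such that the proportion of those which have a companion
whose bad primes have a product of norms less than `X ^ (1 - η)` is at most `X ^ (-ν)`, for all
large `X`. -/
theorem result (K : Type) [Field K] [NumberField K] :
    (∀ δ : ℝ, 0 < δ → ∃ X₀ : ℝ, ∀ X : ℝ, X₀ ≤ X → (Curves K X).Finite ∧
      X ^ (2 / 3 - δ) ≤ ((Curves K X).ncard : ℝ) ∧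
      ((Curves K X).ncard : ℝ) ≤ X ^ (2 / 3 + δ)) ∧
    (∀ η : ℝ, 0 < η → ∃ ν X₀ : ℝ, 0 < ν ∧ ∀ X : ℝ, X₀ ≤ X →
      ((Exceptional K η X).ncard : ℝ) ≤ X ^ (-ν) * (Curves K X).ncard) := by
  refine ⟨fun δ hδ => Pool.Agent.Y729.CF.two_bounds K δ hδ, fun η hη => ?_⟩
  obtain ⟨ν, X₀, hν, -, h⟩ := Pool.Agent.Y729.CF.both_count K η hη
  refine ⟨ν, X₀, hν, fun X hX => ?_⟩
  refine h X hX _ ?_
  rintro q ⟨A, B, h1, h2, h3, h4, A', B', h5, ⟨h6, n, hn, f, f1, f2, f3⟩ | ⟨h6, p, hp, h13, hpd, hF⟩⟩
  · exact Or.inl ⟨A, B, h1, h2, h3, h4, A', B', h5, h6, n, f, hn, ⟨f1, f2, f3⟩⟩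
  · exact Or.inr ⟨A, B, h1, h2, h3, h4, A', B', h5, h6, p, hp, h13, hpd, hF⟩

end Pool.Agent.Results.MP_4a0cc8_nt.ConductorOrderedAllLevels
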