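import Pool.Agent.Results.MP_4a0cc8_nt.FewPartnersAllLevels
import Pool.Agent.Y854.GM.Win

/-!
# No curve with the height of its invariant in windows is congruent to a given curve

Let `K` be a number field of degree `d`, `H` the height on `K`, `v ≥ 1` a sequence with exponent of convergence at most `τ`
(for `v_k = k ^ b` this is `1 / b`, for `v_k = b ^ k` or `k!` it is `0`) and `θ < 1`. For all `α > 0` outside a set of
Hausdorff dimension at most `τ / (1 - θ)` there is `n₀` with the following property: for EVERY elliptic curve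
`E₀ : y² = x³ + A₀x + B₀` over `K`, `A₀`, `B₀` integral, and all but finitely many `k`, NO elliptic curve `E` over `K` with
`|H(j(E)) - α v_k| ≤ v_k ^ θ` satisfies `E[n] ≅ E₀[n]` for some `n ≥ n₀`.
-/

set_option autoImplicit false

open Filter Topology NumberField
open scoped ENNReal

namespace Pool.Agent.Results.MP_4a0cc8_nt.PartnerWindows

open FewPartnersAllLevels (Congruent jInvariant Isomorphic)

/-- the exponent of convergence of the sequence `v` is at most `τ` -/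
def ExpLe (v : ℕ → ℝ) (τ : ℝ) : Prop := ∀ t : ℝ, τ < t → Summable (fun n : ℕ => (v n) ^ (-t))

/-- isomorphic curves have the same invariant -/
lemma j_iso {K : Type} [Field K] {A B A' B' : K} (h : Isomorphic A B A' B') : jInvariant A' B' = jInvariant A B := by
  obtain ⟨t, ht, rfl, rfl⟩ := h
  unfold jInvariant
  have h1 : 6912 * (t ^ 4 * A) ^ 3 = t ^ 12 * (6912 * A ^ 3) := by ring
  have h2 : 4 * (t ^ 4 * A) ^ 3 + 27 * (t ^ 6 * B) ^ 2 = t ^ 12 * (4 * A ^ 3 + 27 * B ^ 2) := by ring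
  rw [h1, h2, mul_div_mul_left _ _ (pow_ne_zero 12 ht)]

/-- the invariants of the curves congruent to `y² = x³ + A₀x + B₀` modulo some `n ≥ n₀` -/
def Partners {K : Type} [Field K] (n₀ : ℕ) (A₀ B₀ : K) : Set K :=
  {x | ∃ A B : K, 4 * A ^ 3 + 27 * B ^ 2 ≠ 0 ∧ jInvariant A B = x ∧ ∃ n : ℕ, n₀ ≤ n ∧ Congruent n A B A₀ B₀}

lemma partners_count (d : ℕ) (ε : ℝ) (hε : 0 < ε) : ∃ n₀ : ℕ,
    ∀ (K : Type) [Field K] [NumberField K], Module.finrank ℚ K = d → ∀ A₀ B₀ : 𝓞 K,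
      4 * A₀ ^ 3 + 27 * B₀ ^ 2 ≠ 0 → ∃ C : ℝ, 0 ≤ C ∧ ∀ X : ℝ, 1 ≤ X →
        {x : K | x ∈ Partners n₀ (A₀ : K) (B₀ : K) ∧ Height.mulHeight₁ x ≤ X}.Finite ∧
        ({x : K | x ∈ Partners n₀ (A₀ : K) (B₀ : K) ∧ Height.mulHeight₁ x ≤ X}.ncard : ℝ) ≤ C * X ^ ε := by
  classical
  obtain ⟨n₀, h⟩ := FewPartnersAllLevels.result d ε hε
  refine ⟨n₀, fun K _ _ hK A₀ B₀ h0 => ?_⟩
  obtain ⟨C, κ, h'⟩ := h K hK
  have h1 := h' A₀ B₀ h0
  set M : ℝ := |((Algebra.norm ℤ (4 * A₀ ^ 3 + 27 * B₀ ^ 2) : ℤ) : ℝ)| ^ κ with hM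
  have hch : ∀ x : K, ∃ e : K × K, x ∈ Partners n₀ (A₀ : K) (B₀ : K) → 4 * e.1 ^ 3 + 27 * e.2 ^ 2 ≠ 0 ∧
      jInvariant e.1 e.2 = x ∧ ∃ n : ℕ, n₀ ≤ n ∧ Congruent n e.1 e.2 (A₀ : K) (B₀ : K) := by
    intro x
    by_cases hx : x ∈ Partners n₀ (A₀ : K) (B₀ : K)
    · obtain ⟨A, B, h2, h3, h4⟩ := hx
      exact ⟨(A, B), fun _ => ⟨h2, h3, h4⟩⟩
    · exact ⟨(0, 0), fun hx' => absurd hx' hx⟩
  choose g hg using hch
  have key : ∀ X : ℝ, 1 ≤ X → ∀ F : Finset K,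
      (∀ x ∈ F, x ∈ Partners n₀ (A₀ : K) (B₀ : K) ∧ Height.mulHeight₁ x ≤ X) → (F.card : ℝ) ≤ C * M * X ^ ε := by
    intro X hX F hF
    have hinj : Set.InjOn g F := by
      intro x hx x' hx' he
      have e1 := (hg x (hF x hx).1).2.1
      have e2 := (hg x' (hF x' hx').1).2.1
      rw [← e1, ← e2, he]
    rw [← Finset.card_image_of_injOn hinj]
    apply h1 X hX (F.image g)
    · intro e he e' he' hiso
      obtain ⟨x, hx, rfl⟩ := Finset.mem_image.1 he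
      obtain ⟨x', hx', rfl⟩ := Finset.mem_image.1 he'
      have e1 := (hg x (hF x hx).1).2.1
      have e2 := (hg x' (hF x' hx').1).2.1
      have e3 := j_iso hiso
      rw [e1, e2] at e3
      rw [e3]
    · intro e he
      obtain ⟨x, hx, rfl⟩ := Finset.mem_image.1 he
      obtain ⟨e1, e2, e3⟩ := hg x (hF x hx).1
      refine ⟨e1, ?_, e3⟩
      rw [e2]
      exact (hF x hx).2
  refine ⟨max (C * M) 0, le_max_right _ _, fun X hX => ?_⟩
  have hfin : {x : K | x ∈ Partners n₀ (A₀ : K) (B₀ : K) ∧ Height.mulHeight₁ x ≤ X}.Finite := by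
    by_contra hinf
    obtain ⟨F, hF1, hF2⟩ := (show Set.Infinite _ from hinf).exists_subset_card_eq (⌊C * M * X ^ ε⌋₊ + 1)
    have h2 := key X hX F (fun x hx => hF1 hx)
    rw [hF2] at h2
    push_cast at h2
    have h3 := Nat.lt_floor_add_one (C * M * X ^ ε)
    linarith
  refine ⟨hfin, ?_⟩
  rw [Set.ncard_eq_toFinset_card _ hfin]
  refine (key X hX hfin.toFinset (fun x hx => by
    rw [Set.Finite.mem_toFinset] at hx
    exact hx)).trans ?_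
  exact mul_le_mul_of_nonneg_right (le_max_left _ _) (by positivity)

/-- **Theorem.** Let `v ≥ 1` be a sequence of exponent of convergence at most `τ ≥ 0`, `θ < 1` and `K` a number field. There
is a set `E` of Hausdorff dimension at most `τ / (1 - θ)` such that for each `α > 0` outside `E` there is `n₀` with the
following property: for EVERY elliptic curve `E₀ : y² = x³ + A₀x + B₀` over `K`, `A₀`, `B₀` integral, there is `k₀` such that
for all `k ≥ k₀` no elliptic curve `y² = x³ + Ax + B` over `K` with `|H(j) - α v_k| ≤ v_k ^ θ`, `H(j)` the height of its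
invariant, is congruent to `E₀` modulo some `n ≥ n₀`. The sequences `v_k = (k + 1) ^ b` and `v_k = b ^ k` have exponent of
convergence at most `1 / b` and `0`. -/
theorem result :
    (∀ (v : ℕ → ℝ) (τ θ : ℝ), (∀ n, 1 ≤ v n) → 0 ≤ τ → ExpLe v τ → θ < 1 →
      ∀ (K : Type) [Field K] [NumberField K],
      ∃ E : Set ℝ, dimH E ≤ ENNReal.ofReal (τ / (1 - θ)) ∧ ∀ α : ℝ, 0 < α → α ∉ E → ∃ n₀ : ℕ,
        ∀ A₀ B₀ : 𝓞 K, 4 * A₀ ^ 3 + 27 * B₀ ^ 2 ≠ 0 → ∃ k₀ : ℕ, ∀ k : ℕ, k₀ ≤ k → ∀ A B : K,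
          4 * A ^ 3 + 27 * B ^ 2 ≠ 0 → |Height.mulHeight₁ (jInvariant A B) - α * v k| ≤ (v k) ^ θ →
          ∀ n : ℕ, n₀ ≤ n → ¬ Congruent n A B (A₀ : K) (B₀ : K)) ∧
    (∀ b : ℝ, 0 < b → ExpLe (fun n : ℕ => ((n : ℝ) + 1) ^ b) (1 / b)) ∧
    (∀ b : ℝ, 1 < b → ExpLe (fun n : ℕ => b ^ n) 0) := by
  classical
  refine ⟨fun v τ θ hv hτ hE hθ1 K _ _ => ?_,
    fun κ hκ => Pool.Agent.Y854.GM.expLe_pow κ hκ, fun κ hκ => Pool.Agent.Y854.GM.expLe_geom κ hκ⟩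
  have hK : Countable K := (Module.finBasis ℚ K).equivFun.injective.countable
  have hcnt : Countable (𝓞 K) := (RingOfIntegers.coe_injective (K := K)).countable
  have hall : ∀ j : ℕ, ∃ (n₀ : ℕ) (G : 𝓞 K × 𝓞 K → Set ℝ),
      ∀ e : 𝓞 K × 𝓞 K, dimH (G e) ≤ ENNReal.ofReal ((1 / ((j : ℝ) + 1) + τ) / (1 - θ)) ∧
      ∀ α : ℝ, 0 < α → α ∉ G e → 4 * e.1 ^ 3 + 27 * e.2 ^ 2 ≠ 0 → ∃ k₀ : ℕ, ∀ k : ℕ, k₀ ≤ k →
        ∀ x ∈ Partners n₀ (e.1 : K) (e.2 : K), (v k) ^ θ < |Height.mulHeight₁ x - α * v k| := by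
    intro j
    obtain ⟨n₀, h⟩ := partners_count (Module.finrank ℚ K) (1 / ((j : ℝ) + 1)) (by positivity)
    have hone : ∀ e : 𝓞 K × 𝓞 K, ∃ G : Set ℝ, dimH G ≤ ENNReal.ofReal ((1 / ((j : ℝ) + 1) + τ) / (1 - θ)) ∧
      ∀ α : ℝ, 0 < α → α ∉ G → 4 * e.1 ^ 3 + 27 * e.2 ^ 2 ≠ 0 → ∃ k₀ : ℕ, ∀ k : ℕ, k₀ ≤ k →
        ∀ x ∈ Partners n₀ (e.1 : K) (e.2 : K), (v k) ^ θ < |Height.mulHeight₁ x - α * v k| := by
      intro e
      by_cases he : 4 * e.1 ^ 3 + 27 * e.2 ^ 2 ≠ 0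
      · obtain ⟨C, hC, h'⟩ := h K rfl e.1 e.2 he
        obtain ⟨E, h3, h4⟩ := Pool.Agent.Y854.GM.windows (Partners n₀ (e.1 : K) (e.2 : K))
          (fun x => Height.mulHeight₁ x) hv hτ hE (s := 1 / ((j : ℝ) + 1)) (by positivity) hθ1 (fun ε hε => by
            refine ⟨C, fun X hX => ⟨(h' X hX).1, (h' X hX).2.trans ?_⟩⟩
            apply mul_le_mul_of_nonneg_left _ hC
            exact Real.rpow_le_rpow_of_exponent_le hX (by linarith))
        exact ⟨E, h3, fun α hα hαE _ => h4 α hα hαE⟩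
      · exact ⟨∅, by simp, fun α _ _ he' => absurd he' he⟩
    choose G hG using hone
    exact ⟨n₀, G, hG⟩
  choose n₀ G hG using hall
  have hlim : Tendsto (fun m : ℕ => ENNReal.ofReal ((1 / ((m : ℝ) + 1) + τ) / (1 - θ))) atTop
      (𝓝 (ENNReal.ofReal ((0 + τ) / (1 - θ)))) :=
    ENNReal.tendsto_ofReal ((tendsto_one_div_add_atTop_nhds_zero_nat.add_const τ).div_const (1 - θ))
  rw [zero_add] at hlim
  refine ⟨⋂ m, ⋃ e, G m e, ge_of_tendsto' hlim fun m => (dimH_mono (Set.iInter_subset _ m)).trans ?_,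
    fun α hα hαE => ?_⟩
  · rw [dimH_iUnion]
    exact iSup_le fun e => (hG m e).1
  · rw [Set.mem_iInter] at hαE
    push Not at hαE
    obtain ⟨j, hj⟩ := hαE
    rw [Set.mem_iUnion] at hj
    push Not at hj
    refine ⟨n₀ j, fun A₀ B₀ h0 => ?_⟩
    obtain ⟨k₀, hk⟩ := (hG j (A₀, B₀)).2 α hα (hj (A₀, B₀)) h0
    refine ⟨k₀, fun k hk1 A B hAB hw n hn hcon => ?_⟩
    exact absurd hw (not_le.2 (hk k hk1 (jInvariant A B) ⟨A, B, hAB, rfl, n, hn, hcon⟩))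

end Pool.Agent.Results.MP_4a0cc8_nt.PartnerWindows
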